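import Mathlib
import Pool.Agent.R256.Alz2

set_option autoImplicit false
set_option linter.unusedSectionVars false

open scoped InnerProductSpace

namespace Pool.Agent.Results.MP_be8317_an.OperatorAlzer

noncomputable section

universe u

variable {H : Type u} [NormedAddCommGroup H] [InnerProductSpace ℂ H] [CompleteSpace H]

/-- `Φ_{1/m}(X,Y) = Y^{1/2} (Y^{-1/2} X Y^{-1/2})^{1/m} Y^{1/2}` (powers by the functional
calculus) -/
def Phi (m : ℕ) (X Y : H →L[ℂ] H) : H →L[ℂ] H :=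
  Y ^ ((1:ℝ) / 2) * (Y ^ (-((1:ℝ) / 2)) * X * Y ^ (-((1:ℝ) / 2))) ^ ((1:ℝ) / m) * Y ^ ((1:ℝ) / 2)

/-- the geometric mean of a tuple, by recursion in the argument order -/
def G : List (H →L[ℂ] H) → (H →L[ℂ] H)
  | [] => 0
  | [X] => X
  | X :: Y :: l => Phi (l.length + 2) X (G (Y :: l))

/-- the arithmetic mean of a tuple -/
def AM (l : List (H →L[ℂ] H)) : H →L[ℂ] H := ((1:ℝ) / l.length) • l.sum

/-- the tuple `(I - A_1, ..., I - A_n)` -/
def comp (l : List (H →L[ℂ] H)) : List (H →L[ℂ] H) := l.map fun A => 1 - A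

open Pool.Agent.R256.Alz

lemma phi_pos {w : ℝ} {A B : H →L[ℂ] H} (hA : 0 ≤ A) (hAu : IsUnit A) (hB : 0 ≤ B) (hBu : IsUnit B) :
    0 ≤ Pool.Agent.R256.Alz.Phi w A B ∧ IsUnit (Pool.Agent.R256.Alz.Phi w A B) := by
  have hC := Cc_nonneg hA hB hBu
  have hCu := Cc_unit hAu hB hBu
  exact conj_pos (S := B ^ ((1:ℝ) / 2)) (B := (Cc A B) ^ w) CFC.rpow_nonneg (hBu.cfcRpow _ hB)
    CFC.rpow_nonneg (hCu.cfcRpow _ hC)

lemma base_cls {A : H →L[ℂ] H} (hA : A ≤ ((1:ℝ) / 2) • (1 : H →L[ℂ] H)) :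
    Cls (1 - A) A ((1 - A) - A) := by
  intro p r
  have h1 : 0 ≤ q (((1:ℝ) / 2) • (1 : H →L[ℂ] H) - A) (p + r) :=
    q_nonneg (sub_nonneg.mpr hA) _
  have hid : ∀ v : H, (⟪v, v⟫_ℂ).re = ‖v‖ ^ 2 := fun v => by
    have := inner_self_eq_norm_sq (𝕜 := ℂ) v
    simpa using this
  have e1 : q (((1:ℝ) / 2) • (1 : H →L[ℂ] H) - A) (p + r) = (1 / 2) * ‖p + r‖ ^ 2 - q A (p + r) := by
    unfold q
    have : (((1:ℝ) / 2) • (1 : H →L[ℂ] H) - A) (p + r) = ((1:ℝ) / 2) • (p + r) - A (p + r) := rfl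
    rw [this, inner_sub_left, Complex.sub_re, re_smul, hid]
  have e2 : q ((1 - A) - A) (p - r) = ‖p - r‖ ^ 2 - 2 * q A (p - r) := by
    unfold q
    have : ((1 - A) - A) (p - r) = (p - r) - A (p - r) - A (p - r) := rfl
    rw [this, inner_sub_left, inner_sub_left, Complex.sub_re, Complex.sub_re, hid]
    ring
  have e3 : q (1 - A) p = ‖p‖ ^ 2 - q A p := by
    unfold q
    have : (1 - A) p = p - A p := rfl
    rw [this, inner_sub_left, Complex.sub_re, hid]
  have par1 : ‖p + r‖ ^ 2 + ‖p - r‖ ^ 2 = 2 * ‖p‖ ^ 2 + 2 * ‖r‖ ^ 2 := by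
    have := parallelogram_law_with_norm ℂ p r
    nlinarith
  have par2 : q A (p + r) + q A (p - r) = 2 * q A p + 2 * q A r := by
    unfold q
    simp only [map_add, map_sub, inner_add_left, inner_add_right, inner_sub_left, inner_sub_right,
      Complex.add_re, Complex.sub_re]
    ring
  rw [e1] at h1
  rw [e2, e3]
  nlinarith

lemma half_pos' : (0 : H →L[ℂ] H) ≤ ((1:ℝ) / 2) • (1 : H →L[ℂ] H) ∧
    IsUnit (((1:ℝ) / 2) • (1 : H →L[ℂ] H)) := by
  refine ⟨?_, ?_⟩
  · rw [← Algebra.algebraMap_eq_smul_one]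
    exact algebraMap_nonneg _ (by norm_num)
  · rw [← Algebra.algebraMap_eq_smul_one]
    exact (IsUnit.mk0 ((1:ℝ) / 2) (by norm_num)).map (algebraMap ℝ (H →L[ℂ] H))

lemma compl_pos {A : H →L[ℂ] H} (hA : A ≤ ((1:ℝ) / 2) • (1 : H →L[ℂ] H)) :
    0 ≤ 1 - A ∧ IsUnit (1 - A) := by
  have h1 : ((1:ℝ) / 2) • (1 : H →L[ℂ] H) ≤ 1 - A := by
    rw [le_sub_iff_add_le]
    have h2 : ((1:ℝ) / 2) • (1 : H →L[ℂ] H) + ((1:ℝ) / 2) • (1 : H →L[ℂ] H) = 1 := by
      rw [← add_smul]; norm_num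
    calc ((1:ℝ) / 2) • (1 : H →L[ℂ] H) + A ≤ ((1:ℝ) / 2) • (1 : H →L[ℂ] H) + ((1:ℝ) / 2) • (1 : H →L[ℂ] H) :=
          add_le_add_right hA _
      _ = 1 := h2
  obtain ⟨h3, h4⟩ := half_pos' (H := H)
  exact ⟨h3.trans h1, CStarAlgebra.isUnit_of_le _ h1 ⟨h3, h4⟩⟩

lemma am_cons (X : H →L[ℂ] H) (l : List (H →L[ℂ] H)) (hl : l ≠ []) :
    AM (X :: l) = ((1:ℝ) / (l.length + 1 : ℕ)) • X + (1 - (1:ℝ) / (l.length + 1 : ℕ)) • AM l := by
  unfold AM
  have h : (0:ℝ) < l.length := by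
    have := List.length_pos_of_ne_nil hl
    exact_mod_cast this
  rw [List.sum_cons, List.length_cons, smul_add, smul_smul]
  congr 2
  push_cast
  field_simp
  ring

theorem main [Nontrivial H] (l : List (H →L[ℂ] H)) (hl : l ≠ [])
    (h : ∀ A ∈ l, (0 ≤ A ∧ IsUnit A) ∧ A ≤ ((1:ℝ) / 2) • (1 : H →L[ℂ] H)) :
    (0 ≤ G l ∧ IsUnit (G l)) ∧ (0 ≤ G (comp l) ∧ IsUnit (G (comp l))) ∧
      Cls (G (comp l)) (G l) (AM (comp l) - AM l) := by
  induction l with
  | nil => exact absurd rfl hl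
  | cons X t ih =>
    obtain ⟨⟨hX, hXu⟩, hX2⟩ := h X (List.mem_cons_self)
    obtain ⟨hX', hXu'⟩ := compl_pos hX2
    match t, ih, h with
    | [], _, _ =>
      refine ⟨⟨hX, hXu⟩, ⟨hX', hXu'⟩, ?_⟩
      have : AM (comp [X]) - AM [X] = (1 - X) - X := by
        simp [AM, comp]
      rw [this]
      exact base_cls hX2
    | Y :: t, ih, h =>
      obtain ⟨⟨g1, g2⟩, ⟨g3, g4⟩, g5⟩ := ih (by simp) fun A hA => h A (List.mem_cons_of_mem _ hA)
      have hw : ((1:ℝ) / ((t.length + 2 : ℕ) : ℝ)) ∈ Set.Ioo (0:ℝ) 1 := by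
        constructor
        · positivity
        · rw [div_lt_one (by positivity)]
          have : (0:ℝ) ≤ t.length := Nat.cast_nonneg _
          push_cast
          linarith
      have e1 : G (X :: Y :: t) = Pool.Agent.R256.Alz.Phi ((1:ℝ) / ((t.length + 2 : ℕ) : ℝ)) X (G (Y :: t)) := rfl
      have e2 : G (comp (X :: Y :: t)) = Pool.Agent.R256.Alz.Phi ((1:ℝ) / ((t.length + 2 : ℕ) : ℝ)) (1 - X)
          (G (comp (Y :: t))) := by
        have : comp (X :: Y :: t) = (1 - X) :: (1 - Y) :: comp t := rfl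
        rw [this]
        have h3 : comp (Y :: t) = (1 - Y) :: comp t := rfl
        rw [h3]
        show Phi ((comp t).length + 2) (1 - X) _ = _
        have h4 : (comp t).length = t.length := by simp [comp]
        rw [h4]
        rfl
      rw [e1, e2]
      refine ⟨phi_pos hX hXu g1 g2, phi_pos hX' hXu' g3 g4, ?_⟩
      have e3 : AM (comp (X :: Y :: t)) - AM (X :: Y :: t) =
          ((1:ℝ) / ((t.length + 2 : ℕ) : ℝ)) • ((1 - X) - X) +
          (1 - (1:ℝ) / ((t.length + 2 : ℕ) : ℝ)) • (AM (comp (Y :: t)) - AM (Y :: t)) := by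
        have h5 : comp (X :: Y :: t) = (1 - X) :: comp (Y :: t) := rfl
        rw [h5, am_cons (1 - X) (comp (Y :: t)) (by simp [comp]), am_cons X (Y :: t) (by simp)]
        have h6 : (comp (Y :: t)).length + 1 = t.length + 2 := by simp [comp]
        have h7 : (Y :: t).length + 1 = t.length + 2 := by simp
        rw [h6, h7]
        simp only [smul_sub]
        abel
      rw [e3]
      exact step hX' hX g3 g4 g1 g2 (base_cls hX2) g5 hw

/-- **The operator version of Alzer's inequality holds** for every complex Hilbert space, every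
`n ≥ 2` (indeed `n ≥ 1`) and all `0 < A_1, ..., A_n ≤ 1/2`. -/
theorem result (l : List (H →L[ℂ] H)) (hl : 2 ≤ l.length)
    (h : ∀ A ∈ l, (0 ≤ A ∧ IsUnit A) ∧ A ≤ ((1:ℝ) / 2) • (1 : H →L[ℂ] H)) :
    ((AM l - G l) - (AM (comp l) - G (comp l))).IsPositive := by
  rcases subsingleton_or_nontrivial H with hs | hn
  · have : (AM l - G l) - (AM (comp l) - G (comp l)) = 0 := Subsingleton.elim _ _
    rw [this]
    exact ContinuousLinearMap.isPositive_zero
  have hl' : l ≠ [] := by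
    rintro rfl
    simp at hl
  obtain ⟨⟨g1, -⟩, ⟨g3, -⟩, g5⟩ := main l hl' h
  have hsum : ∀ m : List (H →L[ℂ] H), (∀ A ∈ m, IsSelfAdjoint A) → IsSelfAdjoint (AM m) := by
    intro m hm
    have h1 : IsSelfAdjoint m.sum := by
      induction m with
      | nil => simp
      | cons A m ih =>
        rw [List.sum_cons]
        exact (hm A List.mem_cons_self).add (ih fun B hB => hm B (List.mem_cons_of_mem _ hB))
    exact IsSelfAdjoint.smul (IsSelfAdjoint.all ((1:ℝ) / m.length)) h1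
  have s1 : IsSelfAdjoint (AM l) := hsum l fun A hA => IsSelfAdjoint.of_nonneg (h A hA).1.1
  have s2 : IsSelfAdjoint (AM (comp l)) := by
    refine hsum _ fun A hA => ?_
    obtain ⟨B, hB, rfl⟩ := List.mem_map.mp hA
    exact (IsSelfAdjoint.one _).sub (IsSelfAdjoint.of_nonneg (h B hB).1.1)
  have s3 : IsSelfAdjoint ((AM l - G l) - (AM (comp l) - G (comp l))) :=
    (s1.sub (IsSelfAdjoint.of_nonneg g1)).sub (s2.sub (IsSelfAdjoint.of_nonneg g3))
  rw [ContinuousLinearMap.isPositive_def']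
  refine ⟨s3, fun p => ?_⟩
  have h1 := g5 p (-p)
  have e0 : p - -p = (2:ℝ) • p := by rw [sub_neg_eq_add, two_smul]
  have e1 : q (AM (comp l) - AM l) ((2:ℝ) • p) = 4 * q (AM (comp l) - AM l) p := by
    unfold q
    rw [ContinuousLinearMap.map_smul_of_tower, re_smul, re_smul_right]
    ring
  have e2 : q (G l) (-p) = q (G l) p := by
    unfold q
    rw [map_neg, inner_neg_neg]
  rw [e0, e1, e2, norm_neg] at h1
  have e3 : ((AM l - G l) - (AM (comp l) - G (comp l))).reApplyInnerSelf p =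
      q (G (comp l)) p - q (G l) p - q (AM (comp l) - AM l) p := by
    rw [ContinuousLinearMap.reApplyInnerSelf_apply]
    unfold q
    have : ((AM l - G l) - (AM (comp l) - G (comp l))) p =
        G (comp l) p - G l p - (AM (comp l) - AM l) p := by
      simp only [sub_apply]
      abel
    rw [this, inner_sub_left, inner_sub_left]
    simp only [RCLike.re_to_complex, Complex.sub_re]
  rw [e3]
  linarith

end

end Pool.Agent.Results.MP_be8317_an.OperatorAlzer
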